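import Pool.Agent.W114.PQ.Stm
import Pool.Agent.H951R4.OD.M
import Pool.Agent.H951R4.OD.A1

set_option autoImplicit false

/-! Project PQ, task CF: a fixed cofactor. -/

namespace Pool.Agent.W11.PQ

open Finset Filter Topology
open Pool.Agent.H951R4.OD (ch PI Ex)
open Pool.Agent.W114.PQ

theorem per_mul {D : Dat} (hD : Ax D) {q : ℕ} (hq : q.Prime) (n k : ℕ) :
    D.T q (n + k * q ^ 2) ↔ D.T q n := by
  induction k with
  | zero => simp
  | succ k ih =>
    have : n + (k + 1) * q ^ 2 = (n + k * q ^ 2) + q ^ 2 := by ring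
    rw [this, hD.per q _ hq, ih]

/-- primes with a power of `g` congruent to `-1` -/
def Bd (D : Dat) (g q : ℕ) : Prop := 2 < q ∧ ¬ q ∣ D.c0 ∧ ∃ j : ℕ, (g : ZMod q) ^ j = -1

theorem bd_coprime {D : Dat} {g q : ℕ} (hq : q.Prime) (h : Bd D g q) : Nat.Coprime g q := by
  obtain ⟨h2, -, j, hj⟩ := h
  rw [Nat.coprime_comm, hq.coprime_iff_not_dvd]
  intro hd
  have : Fact q.Prime := ⟨hq⟩
  have : Fact (2 < q) := ⟨h2⟩
  have h0 : (g : ZMod q) = 0 := by rwa [ZMod.natCast_eq_zero_iff]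
  rw [h0] at hj
  rcases Nat.eq_zero_or_pos j with hj0 | hj0
  · rw [hj0, pow_zero] at hj
    exact ZMod.neg_one_ne_one hj.symm
  · rw [zero_pow (by omega)] at hj
    have : (1 : ZMod q) = 0 := by
      have := congrArg (fun x => -x) hj
      simpa using this.symm
    exact one_ne_zero this

theorem not_T {D : Dat} (hD : Ax D) {g p q : ℕ} (hp : p.Prime) (hpg : g < p) (hg : 0 < g)
    (hpc : D.c0 < p) (hPass : Pass D (g * p)) (hq : q.Prime) (hb : Bd D g q) : ¬ D.T q (g * p) := by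
  intro hT
  obtain ⟨h2, hqc, j, hj⟩ := hb
  have hEx : Ex D.c0 (g * p) p := by
    refine ⟨hp, ?_, Dvd.intro_left _ rfl, ?_⟩
    · intro h
      have := Nat.le_of_dvd hD.c0_pos h
      omega
    · intro h
      rw [sq] at h
      have := Nat.dvd_of_mul_dvd_mul_right hp.pos h
      have := Nat.le_of_dvd hg this
      omega
  refine hPass.1 p q (D.m * j) hEx hq hqc hT ?_
  have h1 := hD.ord q (g * p) hq hqc hT
  push_cast at h1
  have h3 : ((g : ZMod q) * p) ^ (D.m * j) = 1 := by rw [pow_mul, h1, one_pow]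
  rw [mul_pow, mul_comm D.m j, pow_mul (g : ZMod q), hj, hD.m_odd.neg_one_pow] at h3
  rw [mul_comm D.m j]
  have : -(p : ZMod q) ^ (j * D.m) = 1 := by rw [← h3]; ring
  rw [← this, neg_neg]

open scoped Classical in
/-- the sieve weights -/
noncomputable def hh (D : Dat) (g q n : ℕ) : ℝ := if q ∣ n ∨ (Bd D g q ∧ D.T q (g * n)) then 1 else 0

theorem hh01 (D : Dat) (g q n : ℕ) : hh D g q n = 0 ∨ hh D g q n = 1 := by
  unfold hh
  split_ifs
  · exact Or.inr rfl
  · exact Or.inl rfl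

open scoped Classical in
theorem hh_per {D : Dat} (hD : Ax D) {q : ℕ} (hq : q.Prime) (g n : ℕ) :
    hh D g q (n + q ^ 2) = hh D g q n := by
  unfold hh
  have h1 : q ∣ n + q ^ 2 ↔ q ∣ n := by
    rw [Nat.dvd_add_left (dvd_pow_self q (by norm_num))]
  have h2 : D.T q (g * (n + q ^ 2)) ↔ D.T q (g * n) := by
    rw [mul_add]
    exact per_mul hD hq _ g
  exact if_congr (or_congr h1 (and_congr Iff.rfl h2)) rfl rfl

theorem cnt_dvd (q : ℕ) (hq : 0 < q) :
    ∑ n ∈ range (q ^ 2), (if q ∣ n then (1 : ℝ) else 0) = q := by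
  rw [← Finset.sum_filter, Finset.sum_const, nsmul_eq_mul, mul_one]
  have : (range (q ^ 2)).filter (fun n => q ∣ n) = (range q).image (fun j => q * j) := by
    ext n
    simp only [mem_filter, mem_range, mem_image]
    constructor
    · rintro ⟨h1, ⟨c, rfl⟩⟩
      refine ⟨c, ?_, rfl⟩
      rw [sq] at h1
      exact lt_of_mul_lt_mul_left h1 (Nat.zero_le _)
    · rintro ⟨c, hc, rfl⟩
      refine ⟨?_, dvd_mul_right _ _⟩
      rw [sq]
      exact Nat.mul_lt_mul_of_pos_left hc hq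
  rw [this, Finset.card_image_of_injective _ (fun a b hab => Nat.eq_of_mul_eq_mul_left hq hab),
    card_range]

open scoped Classical in
theorem mean_bounds {D : Dat} (hD : Ax D) (mn : S_MN) {g q : ℕ} (hq : q.Prime) :
    (∑ n ∈ range (q ^ 2), hh D g q n) / (q : ℝ) ^ 2 ≤ (2 * D.κ + 1) / q ∧
    1 / (q : ℝ) + (if Bd D g q then D.ρ q / q - D.κ / (q : ℝ) ^ 2 else 0) ≤
      (∑ n ∈ range (q ^ 2), hh D g q n) / (q : ℝ) ^ 2 := by
  have hq0 : (0 : ℝ) < q := by exact_mod_cast hq.pos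
  have hq1 : (1 : ℝ) ≤ q := by exact_mod_cast hq.one_le
  have hk := hD.κ1
  by_cases hb : Bd D g q
  · obtain ⟨m1, m2⟩ := mn D hD q g hq hb.2.1
    have m3 := abs_le.1 (m2 (bd_coprime hq hb))
    have e1 : ∑ n ∈ range (q ^ 2), hh D g q n = ∑ n ∈ range (q ^ 2), (if q ∣ n then (1 : ℝ) else 0) +
        ∑ n ∈ range (q ^ 2), (if D.T q (g * n) then (1 : ℝ) else 0) := by
      rw [← Finset.sum_add_distrib]
      refine Finset.sum_congr rfl fun n _ => ?_
      unfold hh
      by_cases h1 : q ∣ n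
      · have h2 : ¬ D.T q (g * n) := fun h => m1 _ h (dvd_mul_of_dvd_right h1 _)
        simp [h1, h2]
      · by_cases h2 : D.T q (g * n)
        · simp [h1, h2, hb]
        · simp [h1, h2]
    rw [e1, cnt_dvd q hq.pos, add_div, if_pos hb]
    have e2 : (q : ℝ) / (q : ℝ) ^ 2 = 1 / q := by field_simp
    rw [e2]
    have e3 : D.κ / (q : ℝ) ^ 2 ≤ D.κ / q := by
      apply div_le_div_of_nonneg_left (by linarith) hq0
      nlinarith
    have e4 : D.ρ q / q ≤ D.κ / q := by
      apply div_le_div_of_nonneg_right (hD.rho_up q).2 hq0.le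
    have e5 : (2 * D.κ + 1) / (q : ℝ) = D.κ / q + D.κ / q + 1 / q := by ring
    constructor
    · rw [e5]; linarith [m3.2]
    · linarith [m3.1]
  · have e1 : ∑ n ∈ range (q ^ 2), hh D g q n = ∑ n ∈ range (q ^ 2), (if q ∣ n then (1 : ℝ) else 0) := by
      refine Finset.sum_congr rfl fun n _ => ?_
      unfold hh
      simp [hb]
    rw [e1, cnt_dvd q hq.pos, if_neg hb, add_zero]
    have e2 : (q : ℝ) / (q : ℝ) ^ 2 = 1 / q := by field_simp
    rw [e2]
    refine ⟨?_, le_rfl⟩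
    apply div_le_div_of_nonneg_right _ hq0.le
    linarith

open scoped Classical in
/-- the sum of the means -/
theorem means_lower {D : Dat} (hD : Ax D) (mn : S_MN) (h4 : S_H4) {g : ℕ} (hg : 2 ≤ g) :
    ∃ δ C : ℝ, 0 < δ ∧ 0 ≤ C ∧ ∀ z : ℕ, 3 ≤ z → (1 + δ) * Real.log (Real.log z) - C ≤
      ∑ q ∈ PI 0 z, (∑ n ∈ range (q ^ 2), hh D g q n) / (q : ℝ) ^ 2 := by
  obtain ⟨δ, C2, hδ, h4'⟩ := h4 D.e D.Δ hD.e01 hD.neg g hg
  obtain ⟨C3, hC3, h3⟩ := Pool.Agent.H951R4.OD.mert_le
  obtain ⟨C4, hC4, h5⟩ := Pool.Agent.H951R4.OD.sum_sq_inv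
  have hk := hD.κ1
  refine ⟨δ, C3 + |C2| + D.κ * C4 + 2 * D.c0, hδ, by positivity, ?_⟩
  intro z hz
  have s1 : ∑ q ∈ PI 0 z, (1 / (q : ℝ) + (if Bd D g q then D.ρ q / q - D.κ / (q : ℝ) ^ 2 else 0)) ≤
      ∑ q ∈ PI 0 z, (∑ n ∈ range (q ^ 2), hh D g q n) / (q : ℝ) ^ 2 := by
    refine Finset.sum_le_sum fun q hq => ?_
    unfold PI at hq
    rw [mem_filter] at hq
    exact (mean_bounds hD mn hq.2).2
  refine le_trans ?_ s1
  rw [Finset.sum_add_distrib, ← Finset.sum_filter, Finset.sum_sub_distrib]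
  have s2 := (abs_le.1 (h3 z hz)).1
  have s3 : ∑ q ∈ (PI 0 z).filter (fun q => Bd D g q), D.κ / (q : ℝ) ^ 2 ≤ D.κ * C4 := by
    have := h5 ((PI 0 z).filter (fun q => Bd D g q))
    calc ∑ q ∈ (PI 0 z).filter (fun q => Bd D g q), D.κ / (q : ℝ) ^ 2 =
        D.κ * ∑ q ∈ (PI 0 z).filter (fun q => Bd D g q), 1 / (q : ℝ) ^ 2 := by
          rw [Finset.mul_sum]
          exact Finset.sum_congr rfl fun q _ => by ring
      _ ≤ _ := mul_le_mul_of_nonneg_left this (by linarith)
  have hchb : ∀ q : ℕ, |D.e * ch D.Δ q| ≤ 1 := by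
    intro q
    have h1 : |ch D.Δ q| ≤ 1 := by
      rcases Pool.Agent.H951R4.OD.ch_val D.Δ q with h | h | h <;> rw [h] <;> simp
    rcases hD.e01 with h | h <;> rw [h]
    · simp
    · simpa using h1
  -- the bad primes
  have s4 : ∑ q ∈ (PI 2 z).filter (fun q => ∃ j : ℕ, (g : ZMod q) ^ j = -1), (1 + D.e * ch D.Δ q) / q ≤
      ∑ q ∈ (PI 0 z).filter (fun q => Bd D g q), (D.ρ q / q) + 2 * D.c0 := by
    have hsub : (PI 2 z).filter (fun q => ∃ j : ℕ, (g : ZMod q) ^ j = -1) ⊆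
        (PI 0 z).filter (fun q => Bd D g q) ∪ (Ioc 0 D.c0) := by
      intro q hq
      unfold PI at hq
      rw [mem_filter, mem_filter, mem_Ioc] at hq
      rw [mem_union, mem_filter, mem_Ioc]
      unfold PI
      rw [mem_filter, mem_Ioc]
      by_cases h : q ∣ D.c0
      · right
        exact ⟨hq.1.2.pos, Nat.le_of_dvd hD.c0_pos h⟩
      · left
        exact ⟨⟨⟨hq.1.2.pos, hq.1.1.2⟩, hq.1.2⟩, hq.1.1.1, h, hq.2⟩
    have hnn : ∀ q : ℕ, 0 ≤ (1 + D.e * ch D.Δ q) / (q : ℝ) := by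
      intro q
      have := (abs_le.1 (hchb q)).1
      exact div_nonneg (by linarith) (Nat.cast_nonneg q)
    calc ∑ q ∈ (PI 2 z).filter (fun q => ∃ j : ℕ, (g : ZMod q) ^ j = -1), (1 + D.e * ch D.Δ q) / q
        ≤ ∑ q ∈ (PI 0 z).filter (fun q => Bd D g q) ∪ (Ioc 0 D.c0), (1 + D.e * ch D.Δ q) / q :=
          sum_le_sum_of_subset_of_nonneg hsub fun q _ _ => hnn q
      _ ≤ ∑ q ∈ (PI 0 z).filter (fun q => Bd D g q), (1 + D.e * ch D.Δ q) / q +
          ∑ q ∈ (Ioc 0 D.c0), (1 + D.e * ch D.Δ q) / q := by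
          rw [← sum_union_inter]
          exact le_add_of_nonneg_right (sum_nonneg fun q _ => hnn q)
      _ ≤ _ := by
          apply add_le_add
          · refine Finset.sum_le_sum fun q hq => ?_
            rw [mem_filter] at hq
            unfold PI at hq
            rw [mem_filter] at hq
            apply div_le_div_of_nonneg_right _ (Nat.cast_nonneg q)
            exact hD.rho_low q hq.1.2 hq.2.2.1
          · calc ∑ q ∈ (Ioc 0 D.c0), (1 + D.e * ch D.Δ q) / q ≤ ∑ q ∈ (Ioc 0 D.c0), (2 : ℝ) := by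
                  refine Finset.sum_le_sum fun q hq => ?_
                  rw [mem_Ioc] at hq
                  have h1 : (1 : ℝ) ≤ q := by exact_mod_cast hq.1
                  have := (abs_le.1 (hchb q)).2
                  rw [div_le_iff₀ (by linarith)]
                  nlinarith
              _ = 2 * D.c0 := by
                  rw [sum_const, Nat.card_Ioc, nsmul_eq_mul]
                  simp
                  ring
  have s5 := h4' z hz
  have s6 := le_abs_self C2
  nlinarith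

open scoped Classical in
/-- the count -/
theorem count {D : Dat} (hD : Ax D) (sv : S_SV) (mn : S_MN) (h4 : S_H4) {g : ℕ} (hg : 2 ≤ g) :
    ∃ δ C : ℝ, 0 < δ ∧ 1 ≤ C ∧ ∀ z N : ℕ, 3 ≤ z →
      C * Real.log z * (1 + Real.log (Real.log z)) ≤ Real.log N →
      ({p : ℕ | p.Prime ∧ p ≤ N ∧ Pass D (g * p)}.ncard : ℝ) ≤
        z + g + D.c0 + C * N * (Real.log z) ^ (-(1 + δ)) := by
  obtain ⟨C1, hC1, hs⟩ := sv (2 * D.κ + 1) (by linarith [hD.κ1])
  obtain ⟨δ, C2, hδ, hC2, hm⟩ := means_lower hD mn h4 hg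
  have hE : 1 ≤ Real.exp C2 := Real.one_le_exp hC2
  refine ⟨δ, C1 * Real.exp C2, hδ, by nlinarith, ?_⟩
  intro z N hz hN
  have hz3 : (3 : ℝ) ≤ z := by exact_mod_cast hz
  have hlz : 1 ≤ Real.log z := by
    rw [Real.le_log_iff_exp_le (by linarith)]
    have := Real.exp_one_lt_d9
    linarith
  have hllz : 0 ≤ Real.log (Real.log z) := Real.log_nonneg hlz
  set A : Set ℕ := {p : ℕ | p.Prime ∧ p ≤ N ∧ Pass D (g * p)} with hA
  set M : ℕ := z + g + D.c0 with hM
  set F : Finset ℕ := (Icc 1 N).filter (fun m => M < m ∧ m ∈ A) with hF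
  have hsub : A ⊆ ((Ioc 0 M ∪ F : Finset ℕ) : Set ℕ) := by
    intro p hp
    rw [mem_coe, mem_union, hF, mem_filter, mem_Icc, mem_Ioc]
    by_cases h : p ≤ M
    · left; exact ⟨hp.1.pos, h⟩
    · right; exact ⟨⟨hp.1.pos, hp.2.1⟩, by omega, hp⟩
  have hcard : (A.ncard : ℝ) ≤ M + F.card := by
    have h1 := Set.ncard_le_ncard hsub (Finset.finite_toSet _)
    rw [Set.ncard_coe_finset] at h1
    have h2 := h1.trans (Finset.card_union_le _ _)
    rw [Nat.card_Ioc] at h2
    have h3 : A.ncard ≤ M + F.card := by omega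
    exact_mod_cast h3
  have hmem : ∀ q ∈ PI 0 z, q.Prime ∧ q ≤ z := by
    intro q hq
    unfold PI at hq
    rw [mem_filter, mem_Ioc] at hq
    exact ⟨hq.2, hq.1.2⟩
  have hFle : (F.card : ℝ) ≤ ∑ m ∈ Icc 1 N, ∏ q ∈ PI 0 z, (1 - hh D g q m) := by
    rw [hF, Finset.card_filter]
    push_cast
    refine Finset.sum_le_sum fun m _ => ?_
    by_cases hmm : M < m ∧ m ∈ A
    · rw [if_pos hmm]
      apply le_of_eq
      symm
      apply Finset.prod_eq_one
      intro q hq
      obtain ⟨hq1, hq2⟩ := hmem q hq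
      have hzero : hh D g q m = 0 := by
        unfold hh
        rw [if_neg]
        rintro (h | ⟨h1, h2⟩)
        · have := (Nat.prime_dvd_prime_iff_eq hq1 hmm.2.1).1 h
          omega
        · exact not_T hD hmm.2.1 (by omega) (by omega) (by omega) hmm.2.2.2 hq1 h1 h2
      rw [hzero, sub_zero]
    · rw [if_neg hmm]
      apply Finset.prod_nonneg
      intro q _
      rcases hh01 D g q m with h | h <;> rw [h] <;> norm_num
  have hN' : C1 * Real.log z * (1 + Real.log (Real.log z)) ≤ Real.log N := by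
    refine le_trans ?_ hN
    have h1 : C1 ≤ C1 * Real.exp C2 := by nlinarith
    have h2 : 0 ≤ Real.log z * (1 + Real.log (Real.log z)) := by positivity
    nlinarith
  have hsv := hs z N hz hN' (PI 0 z) (hh D g) hmem (fun q _ n => hh01 D g q n)
    (fun q hq n => hh_per hD (hmem q hq).1 g n) (fun q hq => (mean_bounds hD mn (hmem q hq).1).1)
  have hlow := hm z hz
  have hexpo : Real.exp (-∑ q ∈ PI 0 z, (∑ n ∈ range (q ^ 2), hh D g q n) / (q : ℝ) ^ 2) ≤
      Real.exp C2 * (Real.log z) ^ (-(1 + δ)) := by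
    rw [Real.rpow_def_of_pos (by linarith), ← Real.exp_add]
    apply Real.exp_le_exp.2
    nlinarith
  have h5 : (F.card : ℝ) ≤ C1 * N * (Real.exp C2 * (Real.log z) ^ (-(1 + δ))) := by
    refine hFle.trans (hsv.trans ?_)
    exact mul_le_mul_of_nonneg_left hexpo (by positivity)
  have h6 : (M : ℝ) = z + g + D.c0 := by rw [hM]; push_cast; ring
  rw [h6] at hcard
  calc (A.ncard : ℝ) ≤ z + g + D.c0 + F.card := hcard
    _ ≤ z + g + D.c0 + C1 * N * (Real.exp C2 * (Real.log z) ^ (-(1 + δ))) := by linarith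
    _ = _ := by ring

/-- the growth condition of the sieve -/
theorem growth (C K θ : ℝ) (hθ1 : θ < 1) :
    ∀ᶠ L : ℝ in atTop, C * L ^ θ * (1 + Real.log L) + K ≤ L := by
  have hε : 0 < 1 - θ := by linarith
  have t1 : Tendsto (fun L : ℝ => Real.log L / L ^ (1 - θ)) atTop (𝓝 0) :=
    (isLittleO_log_rpow_atTop hε).tendsto_div_nhds_zero
  have t2 : Tendsto (fun L : ℝ => L ^ (-(1 - θ))) atTop (𝓝 0) := tendsto_rpow_neg_atTop hε
  have t3 : Tendsto (fun L : ℝ => K / L) atTop (𝓝 0) := tendsto_const_nhds.div_atTop tendsto_id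
  have t4 : Tendsto (fun L : ℝ => C * (L ^ (-(1 - θ)) + Real.log L / L ^ (1 - θ)) + K / L) atTop
      (𝓝 (C * (0 + 0) + 0)) := ((t2.add t1).const_mul C).add t3
  have t5 := t4.eventually_le_const (show C * (0 + 0) + 0 < (1 : ℝ) by norm_num)
  filter_upwards [t5, eventually_gt_atTop 0] with L h1 h2
  have e1 : L ^ θ = L * L ^ (-(1 - θ)) := by
    conv_rhs => rw [← Real.rpow_one L]
    rw [← Real.rpow_mul h2.le, ← Real.rpow_add h2]
    congr 1
    ring
  have e2 : Real.log L / L ^ (1 - θ) = Real.log L * L ^ (-(1 - θ)) := by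
    rw [Real.rpow_neg h2.le, div_eq_mul_inv]
  rw [e2] at h1
  have e3 : C * L ^ θ * (1 + Real.log L) + K =
      (C * (L ^ (-(1 - θ)) + Real.log L * L ^ (-(1 - θ))) + K / L) * L := by
    rw [e1]
    field_simp
  rw [e3]
  calc (C * (L ^ (-(1 - θ)) + Real.log L * L ^ (-(1 - θ))) + K / L) * L ≤ 1 * L :=
        mul_le_mul_of_nonneg_right h1 h2.le
    _ = L := one_mul L

theorem cf (sv : S_SV) (mn : S_MN) (h4 : S_H4) : S_CF := by
  intro D hD g hg
  obtain ⟨δ, C, hδ, hC, hcount⟩ := count hD sv mn h4 hg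
  set θ : ℝ := (1 + δ / 2) / (1 + δ) with hθ
  have hθ0 : 0 < θ := by positivity
  have hθ1 : θ < 1 := by rw [hθ, div_lt_one (by linarith)]; linarith
  have hθδ : θ * (1 + δ) = 1 + δ / 2 := by rw [hθ]; field_simp
  have hlog : Tendsto (fun X : ℕ => Real.log (X : ℝ)) atTop atTop :=
    Real.tendsto_log_atTop.comp tendsto_natCast_atTop_atTop
  have hg0 : (0 : ℝ) < g := by exact_mod_cast (by omega : 0 < g)
  have hg2 : (2 : ℝ) ≤ g := by exact_mod_cast hg
  have E1 := hlog.eventually (growth C (Real.log (2 * g)) θ hθ1)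
  have E2 := hlog.eventually (growth 2 0 θ hθ1)
  have E3 := hlog.eventually ((tendsto_rpow_atTop hθ0).eventually_ge_atTop 2)
  have E4 := hlog.eventually (eventually_ge_atTop (3 : ℝ))
  have E5 : ∀ᶠ X : ℕ in atTop, 2 * g ≤ X := eventually_ge_atTop _
  have lim : Tendsto (fun X : ℕ => (1 + g + D.c0 : ℝ) * (8 / Real.log (X : ℝ)) +
      C * 2 ^ (1 + δ) * (Real.log (X : ℝ)) ^ (-(δ / 2))) atTop (𝓝 0) := by
    have l1 : Tendsto (fun X : ℕ => 8 / Real.log (X : ℝ)) atTop (𝓝 0) :=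
      tendsto_const_nhds.div_atTop hlog
    have l2 : Tendsto (fun X : ℕ => (Real.log (X : ℝ)) ^ (-(δ / 2))) atTop (𝓝 0) :=
      (tendsto_rpow_neg_atTop (by linarith : 0 < δ / 2)).comp hlog
    have := (l1.const_mul (1 + g + D.c0 : ℝ)).add (l2.const_mul (C * 2 ^ (1 + δ)))
    simpa using this
  refine squeeze_zero' ?_ ?_ lim
  · filter_upwards [E4] with X h4
    positivity
  filter_upwards [E1, E2, E3, E4, E5] with X h1 h2 h3 h4 h5
  set L : ℝ := Real.log (X : ℝ) with hL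
  have hX0 : (0 : ℝ) < X := by
    have : 0 < X := by omega
    exact_mod_cast this
  have hXL : (X : ℝ) = Real.exp L := (Real.exp_log hX0).symm
  set u : ℝ := L ^ θ with hu
  set z : ℕ := ⌊Real.exp u⌋₊ with hz
  have hlogL : 1 ≤ Real.log L := by
    rw [Real.le_log_iff_exp_le (by linarith)]
    have := Real.exp_one_lt_d9
    linarith
  have hexpu : 1 + u + u ^ 2 / 2 ≤ Real.exp u := Real.quadratic_le_exp_of_nonneg (by linarith)
  have hexp4 : (4 : ℝ) ≤ Real.exp u := by nlinarith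
  have hz1 : (z : ℝ) ≤ Real.exp u := Nat.floor_le (by positivity)
  have hz2 : Real.exp u < z + 1 := Nat.lt_floor_add_one _
  have hz3 : 3 ≤ z := by
    have : (3 : ℝ) < z + 1 := by linarith
    have : 3 < z + 1 := by exact_mod_cast this
    omega
  have hz3' : (3 : ℝ) ≤ z := by exact_mod_cast hz3
  have hlz1 : Real.log z ≤ u := by
    have := Real.log_le_log (by linarith) hz1
    rwa [Real.log_exp] at this
  have hlz2 : u / 2 ≤ Real.log z := by
    have h6 : Real.exp u / 2 ≤ z := by linarith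
    have h7 := Real.log_le_log (by positivity) h6
    rw [Real.log_div (by positivity) (by norm_num), Real.log_exp] at h7
    have := Real.log_two_lt_d9
    linarith
  have hlz : 1 ≤ Real.log z := by linarith
  have hllz : Real.log (Real.log z) ≤ Real.log L := by
    apply Real.log_le_log (by linarith)
    refine hlz1.trans ?_
    rw [hu]
    calc L ^ θ ≤ L ^ (1 : ℝ) := Real.rpow_le_rpow_of_exponent_le (by linarith) hθ1.le
      _ = L := Real.rpow_one L
  have hN1 : (X : ℝ) / (2 * g) ≤ ((X / g : ℕ) : ℝ) := by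
    have h6 : (X : ℝ) / g < ((X / g : ℕ) : ℝ) + 1 := by
      rw [div_lt_iff₀ hg0]
      have := Nat.lt_mul_div_succ X (by omega : 0 < g)
      rw [mul_comm]
      exact_mod_cast this
    have h7 : (2 : ℝ) ≤ X / g := by
      rw [le_div_iff₀ hg0]
      exact_mod_cast h5
    have h8 : (X : ℝ) / (2 * g) = (X / g) / 2 := by field_simp
    rw [h8]
    linarith
  have hN2 : ((X / g : ℕ) : ℝ) ≤ X := by
    have : X / g ≤ X := Nat.div_le_self _ _
    exact_mod_cast this
  have hlogN : C * Real.log z * (1 + Real.log (Real.log z)) ≤ Real.log ((X / g : ℕ) : ℝ) := by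
    have h6 := Real.log_le_log (by positivity) hN1
    rw [Real.log_div (by positivity) (by positivity)] at h6
    have h7 : C * Real.log z * (1 + Real.log (Real.log z)) ≤ C * u * (1 + Real.log L) := by
      apply mul_le_mul
      · exact mul_le_mul_of_nonneg_left hlz1 (by linarith)
      · linarith
      · have := Real.log_nonneg hlz
        linarith
      · positivity
    linarith
  have hc := hcount z (X / g) hz3 hlogN
  have hLX : L / X ≤ 8 / L := by
    rw [div_le_div_iff₀ hX0 (by linarith), hXL]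
    have := Real.quadratic_le_exp_of_nonneg (by linarith : 0 ≤ L)
    nlinarith
  have hzLX : z * (L / X) ≤ 8 / L := by
    have h6 : u ≤ L / 2 := by nlinarith
    have h7 : (z : ℝ) ≤ Real.exp (L / 2) := hz1.trans (Real.exp_le_exp.2 h6)
    have h8 : Real.exp L = Real.exp (L / 2) * Real.exp (L / 2) := by rw [← Real.exp_add]; ring_nf
    have h9 := Real.quadratic_le_exp_of_nonneg (by linarith : 0 ≤ L / 2)
    calc z * (L / X) ≤ Real.exp (L / 2) * (L / X) := mul_le_mul_of_nonneg_right h7 (by positivity)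
      _ = L / Real.exp (L / 2) := by
        rw [hXL, h8]
        field_simp
      _ ≤ 8 / L := by
        rw [div_le_div_iff₀ (by positivity) (by linarith)]
        nlinarith
  have hpow : (Real.log z) ^ (-(1 + δ)) * L ≤ 2 ^ (1 + δ) * L ^ (-(δ / 2)) := by
    have h6 : (Real.log z) ^ (-(1 + δ)) ≤ (u / 2) ^ (-(1 + δ)) :=
      Real.rpow_le_rpow_of_nonpos (by linarith) hlz2 (by linarith)
    have h7 : (u / 2) ^ (-(1 + δ)) = 2 ^ (1 + δ) * L ^ (-(1 + δ / 2)) := by
      rw [Real.div_rpow (by linarith) (by norm_num), Real.rpow_neg (by norm_num : (0 : ℝ) ≤ 2),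
        div_inv_eq_mul, hu, ← Real.rpow_mul (by linarith)]
      rw [show θ * -(1 + δ) = -(1 + δ / 2) by rw [← hθδ]; ring]
      ring
    have h8 : L ^ (-(1 + δ / 2)) * L = L ^ (-(δ / 2)) := by
      conv_lhs => rw [← Real.rpow_one L]
      rw [← Real.rpow_mul (by linarith), ← Real.rpow_add (by linarith)]
      congr 1
      ring
    calc (Real.log z) ^ (-(1 + δ)) * L ≤ (2 ^ (1 + δ) * L ^ (-(1 + δ / 2))) * L := by
          rw [← h7]; exact mul_le_mul_of_nonneg_right h6 (by linarith)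
      _ = _ := by rw [mul_assoc, h8]
  have hlp : 0 ≤ (Real.log z) ^ (-(1 + δ)) := Real.rpow_nonneg (by linarith) _
  calc ({p : ℕ | p.Prime ∧ p ≤ X / g ∧ Pass D (g * p)}.ncard : ℝ) * L / X
      ≤ (z + g + D.c0 + C * ((X / g : ℕ) : ℝ) * (Real.log z) ^ (-(1 + δ))) * L / X := by gcongr
    _ ≤ (z + g + D.c0 + C * X * (Real.log z) ^ (-(1 + δ))) * L / X := by gcongr
    _ = z * (L / X) + (g + D.c0) * (L / X) + C * ((Real.log z) ^ (-(1 + δ)) * L) := by
        field_simp
        ring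
    _ ≤ 8 / L + (g + D.c0) * (8 / L) + C * (2 ^ (1 + δ) * L ^ (-(δ / 2))) := by gcongr
    _ = (1 + g + D.c0 : ℝ) * (8 / L) + C * 2 ^ (1 + δ) * L ^ (-(δ / 2)) := by ring

end Pool.Agent.W11.PQ
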